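import Pool.Agent.H23.CMC.Targets

/-! FX: restricting a family to a subset, and its members. -/

set_option autoImplicit false

open NumberField MeasureTheory Set Filter Complex
open scoped nonZeroDivisors Real
open Pool.Agent.H23.CMC
open Pool.Agent.H65.CM4 (Sq nm dg Pl rv)
open Pool.Agent.H65.CMC (Emb ty PrTo IsHk ms IsLk gg GM cG Km Idx cdc Fmc lc)
open Pool.Agent.H23.CM4 (nJ Jd Nr wB)
open Pool.Agent.H23.LC (HG ag)

namespace Pool.Agent.H37.CMC

theorem pf_FX (hDCX : T_DCX) : T_FXc := by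
  intro k _ _ _ ι K _ _ _ Φ S f m F a b h
  constructor
  · intro x hx
    have hne : f x ≠ ⊥ := (h.hk x hx).fne
    have hd : cdc k f x = dC (K x.1) (f x) := rfl
    refine ⟨⟨h.rk x hx, h.cx x hx, h.emb x hx, h.hk x hx⟩, hne, hd, ?_, h.hi x hx, h.lo x hx,
      fun I => ?_⟩
    · rw [hd]
      exact ((hDCX k (K x.1) (h.rk x hx)).2.2.1 (f x) hne).1
    · by_cases hI : PrTo (f x) I
      · exact ((h.hk x hx).nrm I hI).le
      · rw [(h.hk x hx).zer I hI, norm_zero]
        exact zero_le_one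
  · intro S' a' b' m' hS' hm
    refine ⟨fun x hx => h.rk x (hS' hx), fun x hx => h.cx x (hS' hx),
      fun x hx => h.emb x (hS' hx), fun x hx y hy => h.ne x (hS' hx) y (hS' hy),
      fun x hx => ?_, fun x hx => (hm x hx).2.1, fun x hx => (hm x hx).2.2,
      fun x hx => h.lf x (hS' hx)⟩
    rw [(hm x hx).1]
    exact h.hk x (hS' hx)

end Pool.Agent.H37.CMC
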