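import Pool.Agent.H23.CMC.Targets

/-! LCN: the coefficients are finite sums. -/

set_option autoImplicit false

open NumberField MeasureTheory Set Filter Complex
open scoped nonZeroDivisors Real
open Pool.Agent.H23.CMC
open Pool.Agent.H65.CM4 (Sq nm dg Pl rv)
open Pool.Agent.H65.CMC (Emb ty PrTo IsHk ms IsLk gg GM cG Km Idx cdc Fmc lc)
open Pool.Agent.H23.CM4 (nJ Jd Nr wB)
open Pool.Agent.H23.LC (HG ag)

namespace Pool.Agent.H37.CMC

theorem pf_LCN (oJDM : Pool.Agent.H23.CM4.T_JDM) : T_LCN := by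
  intro k _ _ K _ _ _ ψ I
  classical
  obtain ⟨-, -, -, -, hN⟩ := oJDM k
  unfold lc
  have hset : {J : Ideal (𝓞 K) | J ≠ ⊥ ∧ Ideal.relNorm (𝓞 k) J = I} =
      ((Nr k K I).image (fun J : (Ideal (𝓞 K))⁰ => (J : Ideal (𝓞 K))) : Set (Ideal (𝓞 K))) := by
    ext J
    simp only [Finset.coe_image, Set.mem_image, Finset.mem_coe, Set.mem_ofPred_eq]
    constructor
    · rintro ⟨h1, h2⟩
      exact ⟨⟨J, mem_nonZeroDivisors_iff_ne_zero.2 h1⟩, (hN K I _).2 h2, rfl⟩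
    · rintro ⟨J', h1, rfl⟩
      exact ⟨mem_nonZeroDivisors_iff_ne_zero.1 J'.2, (hN K I J').1 h1⟩
  rw [hset, finsum_mem_coe_finset, Finset.sum_image]
  · rfl
  · intro a _ b _ hab
    exact Subtype.ext hab

end Pool.Agent.H37.CMC
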