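import Pool.Agent.H23.CMC.Targets

/-! PLB: the places of `K` and of `k`. -/

set_option autoImplicit false

open NumberField MeasureTheory Set Filter Complex
open scoped nonZeroDivisors Real
open Pool.Agent.H23.CMC
open Pool.Agent.H65.CM4 (Sq nm dg Pl rv)
open Pool.Agent.H65.CMC (Emb ty PrTo IsHk ms IsLk gg GM cG Km Idx cdc Fmc lc)
open Pool.Agent.H23.CM4 (nJ Jd Nr wB)
open Pool.Agent.H23.LC (HG ag)

namespace Pool.Agent.H37.CMC

theorem pf_PLB : T_PLB := by
  intro k _ _ _ K _ _ _ hfr hcx
  have : FiniteDimensional k K := Module.finite_of_finrank_pos (by rw [hfr]; norm_num)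
  have hbij : Function.Bijective (fun w : InfinitePlace K => w.comap (algebraMap k K)) := by
    rw [Fintype.bijective_iff_surjective_and_card]
    refine ⟨InfinitePlace.comap_surjective, ?_⟩
    have h1 : Module.finrank ℚ K = 2 * InfinitePlace.nrComplexPlaces K :=
      IsTotallyComplex.finrank K
    have h2 : Module.finrank ℚ k = InfinitePlace.nrRealPlaces k := IsTotallyReal.finrank k
    have h3 : Module.finrank ℚ k * Module.finrank k K = Module.finrank ℚ K :=
      Module.finrank_mul_finrank ℚ k K
    have h4 := InfinitePlace.card_eq_nrRealPlaces_add_nrComplexPlaces K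
    have h5 := InfinitePlace.card_eq_nrRealPlaces_add_nrComplexPlaces k
    have h6 : InfinitePlace.nrRealPlaces K = 0 := nrRealPlaces_eq_zero_iff.mpr hcx
    have h7 : InfinitePlace.nrComplexPlaces k = 0 :=
      nrComplexPlaces_eq_zero_iff.mpr inferInstance
    rw [hfr] at h3
    omega
  refine ⟨hbij, fun Φ hΦ w => ?_⟩
  have key : InfinitePlace.mk (Φ (w.comap (algebraMap k K))) = w := by
    apply hbij.1
    dsimp only
    apply InfinitePlace.ext
    intro x
    rw [InfinitePlace.comap_apply, InfinitePlace.apply, hΦ, Complex.norm_real]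
    exact InfinitePlace.norm_embedding_of_isReal (IsTotallyReal.isReal _) x
  refine ⟨IsTotallyComplex.isComplex w, ?_, fun a => ?_⟩
  · have h1 : InfinitePlace.mk w.embedding = InfinitePlace.mk (Φ (w.comap (algebraMap k K))) := by
      rw [key, InfinitePlace.mk_embedding]
    rcases InfinitePlace.mk_eq_iff.1 h1 with h2 | h2
    · exact Or.inl h2
    · right
      intro a
      have h3 := congrArg (fun φ : K →+* ℂ => (starRingEnd ℂ) (φ a)) h2
      simpa using h3
  · conv_lhs => rw [← key]
    rfl

end Pool.Agent.H37.CMC
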